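import Mathlib

/-!
# Amiable semigroups and quasi-identities
-/

namespace Q25.AM

/-- Algebras of type `⟨2,1,1⟩` on the set `A`: a binary operation, `x ↦ x_l` and `x ↦ x_r`. -/
structure Alg (A : Type) where
  mul : A → A → A
  l : A → A
  r : A → A

/-- `x L* y`: for all `a, b` in `S¹`, `xa = xb` iff `ya = yb`.  The first part is the case
`a, b ∈ S`, the second part the case where one of `a`, `b` is the adjoined identity (if `S` has
an identity, the second part is a case of the first). -/
def LStar {S : Type} (m : S → S → S) (x y : S) : Prop :=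
  (∀ a b, m x a = m x b ↔ m y a = m y b) ∧ ∀ a, m x a = x ↔ m y a = y

/-- `x R* y`: for all `a, b` in `S¹`, `ax = bx` iff `ay = by`. -/
def RStar {S : Type} (m : S → S → S) (x y : S) : Prop :=
  (∀ a b, m a x = m b x ↔ m a y = m b y) ∧ ∀ a, m a x = x ↔ m a y = y

/-- `(A, ·, l, r)` is an amiable semigroup: the operation is associative, every `L*`-class and
every `R*`-class contains exactly one idempotent, and `l x` respectively `r x` is the idempotent
in the class of `x`. -/
def IsAmiable {A : Type} (s : Alg A) : Prop :=
  (∀ x y z, s.mul (s.mul x y) z = s.mul x (s.mul y z)) ∧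
  (∀ x, s.mul (s.l x) (s.l x) = s.l x ∧ LStar s.mul x (s.l x) ∧
    ∀ e, s.mul e e = e → LStar s.mul x e → e = s.l x) ∧
  (∀ x, s.mul (s.r x) (s.r x) = s.r x ∧ RStar s.mul x (s.r x) ∧
    ∀ e, s.mul e e = e → RStar s.mul x e → e = s.r x)

/-- the relations `a² = a`, `b² = b` on the free semigroup on two letters -/
def FRel (u v : FreeSemigroup Bool) : Prop :=
  ∃ c : Bool, u = FreeSemigroup.of c * FreeSemigroup.of c ∧ v = FreeSemigroup.of c

/-- the semigroup `F` presented by `⟨a, b | a² = a, b² = b⟩` -/
abbrev FF : Type := (conGen FRel).Quotient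

/-- `A` has no subsemigroup isomorphic to `F` -/
def AvoidsF {A : Type} (s : Alg A) : Prop :=
  ¬ ∃ f : FF → A, Function.Injective f ∧ ∀ x y, f (x * y) = s.mul (f x) (f y)

/-- terms of type `⟨2,1,1⟩` in the variables `0, 1, 2, …` -/
inductive Term
  | var : ℕ → Term
  | mul : Term → Term → Term
  | l : Term → Term
  | r : Term → Term

/-- value of a term -/
def Term.eval {A : Type} (s : Alg A) (v : ℕ → A) : Term → A
  | .var n => v n
  | .mul t u => s.mul (t.eval s v) (u.eval s v)
  | .l t => s.l (t.eval s v)
  | .r t => s.r (t.eval s v)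

/-- a quasi-identity: finitely many equations as premises and one equation as conclusion -/
structure QuasiId where
  prem : List (Term × Term)
  concl : Term × Term

/-- the algebra `s` satisfies the quasi-identity `q` -/
def Sat {A : Type} (s : Alg A) (q : QuasiId) : Prop :=
  ∀ v : ℕ → A, (∀ e ∈ q.prem, e.1.eval s v = e.2.eval s v) →
    q.concl.1.eval s v = q.concl.2.eval s v

end Q25.AM
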