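import Mathlib
import Pool.Agent.Q25.AM.Defs

/-!
# Truncated shifts of the integers

The semigroup of truncated shifts used to show that the amiable semigroups avoiding `F` are not a
quasivariety.
-/

namespace Q25.AM

theorem bsr {α : Type*} (o : Option α) : o.bind some = o := by cases o <;> rfl

/-- the truncated shift: move `j` up to the next integer `k` congruent to `p` modulo `2`, check
that `p ≤ k ≤ q`, and add `d` -/
def act (p q d j : ℤ) : Option ℤ :=
  if p ≤ j + (p - j) % 2 ∧ j + (p - j) % 2 ≤ q then some (j + (p - j) % 2 + d) else none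

theorem act_comp {p q d p' q' d' : ℤ} (h : (q - p) % 2 = 0) (h' : (q' - p') % 2 = 0) (j : ℤ) :
    (act p q d j).bind (act p' q' d') =
      if max p (p' - (d + (p' - p - d) % 2)) ≤ min q (q' - (d + (p' - p - d) % 2)) then
        act (max p (p' - (d + (p' - p - d) % 2))) (min q (q' - (d + (p' - p - d) % 2)))
          (d + (p' - p - d) % 2 + d') j
      else none := by
  unfold act
  by_cases h1 : p ≤ j + (p - j) % 2 ∧ j + (p - j) % 2 ≤ q
  · rw [if_pos h1, Option.bind_some]
    by_cases h2 : p' ≤ j + (p - j) % 2 + d + (p' - (j + (p - j) % 2 + d)) % 2 ∧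
        j + (p - j) % 2 + d + (p' - (j + (p - j) % 2 + d)) % 2 ≤ q'
    · rw [if_pos h2, if_pos (by omega), if_pos (by omega)]
      congr 1
      omega
    · rw [if_neg h2]
      split_ifs with h3 h4
      · omega
      · rfl
      · rfl
  · rw [if_neg h1, Option.bind_none]
    split_ifs with h3 h4
    · omega
    · rfl
    · rfl

/-- the set of truncated shifts, with the empty map -/
def IsSh (f : ℤ → Option ℤ) : Prop :=
  (f = fun _ => none) ∨ ∃ p q d : ℤ, p ≤ q ∧ (q - p) % 2 = 0 ∧ 0 ≤ d ∧ f = act p q d

theorem IsSh.comp {f g : ℤ → Option ℤ} (hf : IsSh f) (hg : IsSh g) :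
    IsSh fun j => (f j).bind g := by
  rcases hf with rfl | ⟨p, q, d, h1, h2, h3, rfl⟩
  · left; rfl
  · rcases hg with rfl | ⟨p', q', d', h1', h2', h3', rfl⟩
    · left; funext j; cases act p q d j <;> rfl
    · have e := act_comp (d := d) (d' := d') h2 h2'
      by_cases h : max p (p' - (d + (p' - p - d) % 2)) ≤ min q (q' - (d + (p' - p - d) % 2))
      · right
        refine ⟨_, _, d + (p' - p - d) % 2 + d', h, by omega, by omega, ?_⟩
        funext j; rw [e, if_pos h]
      · left
        funext j; rw [e, if_neg h]

/-- the semigroup of truncated shifts -/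
def Sh : Type := {f : ℤ → Option ℤ // IsSh f}

instance : Semigroup Sh where
  mul f g := ⟨fun j => (f.1 j).bind g.1, f.2.comp g.2⟩
  mul_assoc f g h := by
    apply Subtype.ext
    funext j
    exact Option.bind_assoc _ _ _

theorem mul_apply (f g : Sh) (j : ℤ) : (f * g).1 j = (f.1 j).bind g.1 := rfl

theorem sh_ext {f g : Sh} (h : ∀ j, f.1 j = g.1 j) : f = g := Subtype.ext (funext h)

/-- the zero -/
def zr : Sh := ⟨fun _ => none, Or.inl rfl⟩

/-- a nonzero element -/
def sh (p q d : ℤ) (h1 : p ≤ q) (h2 : (q - p) % 2 = 0) (h3 : 0 ≤ d) : Sh :=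
  ⟨act p q d, Or.inr ⟨p, q, d, h1, h2, h3, rfl⟩⟩

theorem sh_cases (f : Sh) : f = zr ∨ ∃ p q d h1 h2 h3, f = sh p q d h1 h2 h3 := by
  rcases f with ⟨f, hf | ⟨p, q, d, h1, h2, h3, hf⟩⟩
  · left; exact Subtype.ext hf
  · right; exact ⟨p, q, d, h1, h2, h3, Subtype.ext hf⟩

theorem act_self {p q : ℤ} (h : p ≤ q) : act p q 0 p = some p := by
  unfold act
  rw [if_pos (by omega)]
  congr 1
  omega

theorem act_self' {p q : ℤ} (h : p ≤ q) (h2 : (q - p) % 2 = 0) : act p q 0 q = some q := by
  unfold act
  rw [if_pos (by omega)]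
  congr 1
  omega

/-- if a truncated shift with `d = 0` maps `j` to `v` -/
theorem act_some {p q d j v : ℤ} (h : act p q d j = some v) :
    p ≤ v - d ∧ v - d ≤ q ∧ (v - d - p) % 2 = 0 ∧ j ≤ v - d ∧ v - d ≤ j + 1 := by
  unfold act at h
  split_ifs at h with h1
  have h2 : j + (p - j) % 2 + d = v := Option.some.inj h
  omega

theorem act_of {p q d j v : ℤ} (h1 : p ≤ v - d) (h2 : v - d ≤ q) (h3 : (v - d - p) % 2 = 0)
    (h4 : j ≤ v - d) (h5 : v - d ≤ j + 1) : act p q d j = some v := by
  unfold act
  rw [if_pos (by omega)]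
  congr 1
  omega

theorem zr_mul (f : Sh) : zr * f = zr := rfl

theorem mul_zr (f : Sh) : f * zr = zr := by
  apply sh_ext
  intro j
  rw [mul_apply]
  cases f.1 j <;> rfl

theorem idem_sh {p q : ℤ} (h1 : p ≤ q) (h2 : (q - p) % 2 = 0) :
    sh p q 0 h1 h2 le_rfl * sh p q 0 h1 h2 le_rfl = sh p q 0 h1 h2 le_rfl := by
  apply sh_ext
  intro j
  rw [mul_apply]
  change (act p q 0 j).bind (act p q 0) = act p q 0 j
  cases h : act p q 0 j with
  | none => rfl
  | some v =>
    have := act_some h
    exact act_of (by omega) (by omega) (by omega) (by omega) (by omega)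

/-- the idempotents -/
theorem idem_cases {e : Sh} (h : e * e = e) :
    e = zr ∨ ∃ p q h1 h2, e = sh p q 0 h1 h2 le_rfl := by
  rcases sh_cases e with rfl | ⟨p, q, d, h1, h2, h3, rfl⟩
  · exact Or.inl rfl
  · right
    have h0 : (act p q d p) = some (p + d) := act_of (by omega) (by omega) (by omega)
      (by omega) (by omega)
    have := congrArg (fun f : Sh => f.1 p) h
    change (act p q d p).bind (act p q d) = act p q d p at this
    rw [h0, Option.bind_some] at this
    have h4 := act_some this
    have hd : d = 0 := by omega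
    subst hd
    exact ⟨p, q, h1, h2, rfl⟩

theorem lstar_aux {x y : Sh} (h : ∀ v, (∃ j, y.1 j = some v) → ∃ j, x.1 j = some v)
    (f g : ℤ → Option ℤ) (e : ∀ j, (x.1 j).bind f = (x.1 j).bind g) (j : ℤ) :
    (y.1 j).bind f = (y.1 j).bind g := by
  cases hv : y.1 j with
  | none => rfl
  | some v =>
    obtain ⟨i, hi⟩ := h v ⟨j, hv⟩
    have := e i
    rw [hi] at this
    exact this

theorem lstar_of {x y : Sh} (h : ∀ v, (∃ j, x.1 j = some v) ↔ ∃ j, y.1 j = some v) :
    LStar (· * ·) x y := by
  constructor
  · intro a b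
    constructor
    · intro e
      exact sh_ext fun j => lstar_aux (fun v => (h v).2) a.1 b.1
        (fun j => congrArg (fun f : Sh => f.1 j) e) j
    · intro e
      exact sh_ext fun j => lstar_aux (fun v => (h v).1) a.1 b.1
        (fun j => congrArg (fun f : Sh => f.1 j) e) j
  · intro a
    constructor
    · intro e
      apply sh_ext
      intro j
      have := lstar_aux (fun v => (h v).2) a.1 some (fun j => by
        rw [bsr]
        exact congrArg (fun f : Sh => f.1 j) e) j
      rw [bsr] at this
      exact this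
    · intro e
      apply sh_ext
      intro j
      have := lstar_aux (fun v => (h v).1) a.1 some (fun j => by
        rw [bsr]
        exact congrArg (fun f : Sh => f.1 j) e) j
      rw [bsr] at this
      exact this

theorem rstar_aux {x y : Sh} (h : ∀ u v : Option ℤ, u.bind x.1 = v.bind x.1 →
    u.bind y.1 = v.bind y.1) (f g : ℤ → Option ℤ) (e : ∀ j, (f j).bind x.1 = (g j).bind x.1)
    (j : ℤ) : (f j).bind y.1 = (g j).bind y.1 := h _ _ (e j)

theorem rstar_of {x y : Sh} (h : ∀ u v : Option ℤ, u.bind x.1 = v.bind x.1 ↔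
    u.bind y.1 = v.bind y.1) : RStar (· * ·) x y := by
  constructor
  · intro a b
    constructor
    · intro e
      exact sh_ext fun j => (h _ _).1 (congrArg (fun f : Sh => f.1 j) e)
    · intro e
      exact sh_ext fun j => (h _ _).2 (congrArg (fun f : Sh => f.1 j) e)
  · intro a
    constructor
    · intro e
      exact sh_ext fun j => (h _ (some j)).1 (congrArg (fun f : Sh => f.1 j) e)
    · intro e
      exact sh_ext fun j => (h _ (some j)).2 (congrArg (fun f : Sh => f.1 j) e)

theorem exists_l (x : Sh) : ∃ e : Sh, e * e = e ∧ LStar (· * ·) x e := by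
  rcases sh_cases x with rfl | ⟨p, q, d, h1, h2, h3, rfl⟩
  · exact ⟨zr, rfl, fun _ _ => Iff.rfl, fun _ => Iff.rfl⟩
  · refine ⟨sh (p + d) (q + d) 0 (by omega) (by omega) le_rfl, idem_sh _ _, lstar_of fun v => ?_⟩
    change (∃ j, act p q d j = some v) ↔ ∃ j, act (p + d) (q + d) 0 j = some v
    constructor
    · rintro ⟨j, hj⟩
      have := act_some hj
      exact ⟨v, act_of (by omega) (by omega) (by omega) (by omega) (by omega)⟩
    · rintro ⟨j, hj⟩
      have := act_some hj
      exact ⟨v - d, act_of (by omega) (by omega) (by omega) (by omega) (by omega)⟩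

theorem act_d (p q d j : ℤ) : act p q d j = (act p q 0 j).map (· + d) := by
  unfold act
  split_ifs
  · simp
  · rfl

theorem exists_r (x : Sh) : ∃ e : Sh, e * e = e ∧ RStar (· * ·) x e := by
  rcases sh_cases x with rfl | ⟨p, q, d, h1, h2, h3, rfl⟩
  · exact ⟨zr, rfl, fun _ _ => Iff.rfl, fun _ => Iff.rfl⟩
  · refine ⟨sh p q 0 h1 h2 le_rfl, idem_sh _ _, rstar_of fun u v => ?_⟩
    have key : ∀ u : Option ℤ, u.bind (act p q d) = (u.bind (act p q 0)).map (· + d) := by
      intro u
      cases u with
      | none => rfl
      | some u => exact act_d p q d u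
    change u.bind (act p q d) = v.bind (act p q d) ↔ u.bind (act p q 0) = v.bind (act p q 0)
    rw [key, key]
    constructor
    · intro e
      exact Option.map_injective (fun a b h => by simpa using h) e
    · intro e; rw [e]

theorem lstar_idem {x e f : Sh} (he : e * e = e) (hf : f * f = f) (h : LStar (· * ·) x e)
    (h' : LStar (· * ·) x f) : e = f := by
  have h1 : e * f = e := (h.2 f).1 ((h'.2 f).2 hf)
  have h2 : f * e = f := (h'.2 e).1 ((h.2 e).2 he)
  rcases idem_cases he with rfl | ⟨p, q, a1, a2, rfl⟩
  · rw [← h2, mul_zr]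
  · rcases idem_cases hf with rfl | ⟨p', q', b1, b2, rfl⟩
    · rw [← h1, mul_zr]
    · have e1 := congrArg (fun f : Sh => f.1 p) h1
      have e2 := congrArg (fun f : Sh => f.1 q) h1
      have e3 := congrArg (fun f : Sh => f.1 p') h2
      have e4 := congrArg (fun f : Sh => f.1 q') h2
      change (act p q 0 p).bind (act p' q' 0) = act p q 0 p at e1
      change (act p q 0 q).bind (act p' q' 0) = act p q 0 q at e2
      change (act p' q' 0 p').bind (act p q 0) = act p' q' 0 p' at e3
      change (act p' q' 0 q').bind (act p q 0) = act p' q' 0 q' at e4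
      rw [act_self a1, Option.bind_some] at e1
      rw [act_self' a1 a2, Option.bind_some] at e2
      rw [act_self b1, Option.bind_some] at e3
      rw [act_self' b1 b2, Option.bind_some] at e4
      have c1 := act_some e1
      have c2 := act_some e2
      have c3 := act_some e3
      have c4 := act_some e4
      have d1 : p = p' := by omega
      have d2 : q = q' := by omega
      subst d1; subst d2; rfl

theorem rstar_idem {x e f : Sh} (he : e * e = e) (hf : f * f = f) (h : RStar (· * ·) x e)
    (h' : RStar (· * ·) x f) : e = f := by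
  have h1 : f * e = e := (h.2 f).1 ((h'.2 f).2 hf)
  have h2 : e * f = f := (h'.2 e).1 ((h.2 e).2 he)
  rcases idem_cases he with rfl | ⟨p, q, a1, a2, rfl⟩
  · exact h2
  · rcases idem_cases hf with rfl | ⟨p', q', b1, b2, rfl⟩
    · exact h1.symm
    · have aux : ∀ {p q p' q' t : ℤ}, (act p' q' 0 t).bind (act p q 0) = some t →
          act p' q' 0 t = some t := by
        intro p q p' q' t h
        cases hv : act p' q' 0 t with
        | none => rw [hv] at h; exact absurd h (by simp)
        | some v =>
          rw [hv, Option.bind_some] at h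
          have c1 := act_some hv
          have c2 := act_some h
          have : v = t := by omega
          rw [this]
      have e1 := congrArg (fun f : Sh => f.1 p) h1
      have e2 := congrArg (fun f : Sh => f.1 q) h1
      have e3 := congrArg (fun f : Sh => f.1 p') h2
      have e4 := congrArg (fun f : Sh => f.1 q') h2
      change (act p' q' 0 p).bind (act p q 0) = act p q 0 p at e1
      change (act p' q' 0 q).bind (act p q 0) = act p q 0 q at e2
      change (act p q 0 p').bind (act p' q' 0) = act p' q' 0 p' at e3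
      change (act p q 0 q').bind (act p' q' 0) = act p' q' 0 q' at e4
      rw [act_self a1] at e1
      rw [act_self' a1 a2] at e2
      rw [act_self b1] at e3
      rw [act_self' b1 b2] at e4
      have c1 := act_some (aux e1)
      have c2 := act_some (aux e2)
      have c3 := act_some (aux e3)
      have c4 := act_some (aux e4)
      have d1 : p = p' := by omega
      have d2 : q = q' := by omega
      subst d1; subst d2; rfl

end Q25.AM
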