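import Mathlib
import Pool.Agent.Q25.AM.Shift

/-!
# The amiable semigroups avoiding `F` are not a quasivariety
-/

namespace Q25.AM

/-- the algebra of truncated shifts -/
noncomputable def shAlg : Alg Sh where
  mul x y := x * y
  l x := (exists_l x).choose
  r x := (exists_r x).choose

theorem sh_amiable : IsAmiable shAlg := by
  refine ⟨fun x y z => mul_assoc x y z, fun x => ?_, fun x => ?_⟩
  · have h := (exists_l x).choose_spec
    exact ⟨h.1, h.2, fun e he hx => lstar_idem he h.1 hx h.2⟩
  · have h := (exists_r x).choose_spec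
    exact ⟨h.1, h.2, fun e he hx => rstar_idem he h.1 hx h.2⟩

/-! ### Direct powers -/

/-- the direct power -/
def powAlg {A : Type} (s : Alg A) : Alg (ℕ → A) where
  mul x y := fun n => s.mul (x n) (y n)
  l x := fun n => s.l (x n)
  r x := fun n => s.r (x n)

theorem eval_pow {A : Type} (s : Alg A) (v : ℕ → ℕ → A) (t : Term) (n : ℕ) :
    t.eval (powAlg s) v n = t.eval s (fun i => v i n) := by
  induction t with
  | var i => rfl
  | mul t u iht ihu =>
    change s.mul (t.eval (powAlg s) v n) (u.eval (powAlg s) v n) = _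
    rw [iht, ihu]; rfl
  | l t ih =>
    change s.l (t.eval (powAlg s) v n) = _
    rw [ih]; rfl
  | r t ih =>
    change s.r (t.eval (powAlg s) v n) = _
    rw [ih]; rfl

theorem sat_pow {A : Type} {s : Alg A} {q : QuasiId} (h : Sat s q) : Sat (powAlg s) q := by
  intro v hv
  funext n
  rw [eval_pow, eval_pow]
  refine h _ fun e he => ?_
  rw [← eval_pow, ← eval_pow, hv e he]

/-! ### The semigroup `F` -/

/-- alternating words: `alt c m` has `m + 1` letters and first letter `c` -/
def alt : Bool → ℕ → FreeSemigroup Bool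
  | c, 0 => FreeSemigroup.of c
  | c, m + 1 => FreeSemigroup.of c * alt (!c) m

/-- class of a word in `F` -/
def cl (w : FreeSemigroup Bool) : FF := (w : (conGen FRel).Quotient)

theorem cl_mul (u v : FreeSemigroup Bool) : cl (u * v) = cl u * cl v := rfl

theorem cl_surj (x : FF) : ∃ w, cl w = x := Quot.exists_rep x

theorem cl_idem (c : Bool) : cl (FreeSemigroup.of c) * cl (FreeSemigroup.of c) =
    cl (FreeSemigroup.of c) :=
  (Con.eq _).mpr (ConGen.Rel.of _ _ ⟨c, rfl, rfl⟩)

theorem cl_of_alt (c : Bool) (m : ℕ) : cl (FreeSemigroup.of c * alt c m) = cl (alt c m) := by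
  cases m with
  | zero => rw [alt, cl_mul, cl_idem]
  | succ m => rw [alt, ← mul_assoc, cl_mul, cl_mul, cl_idem, ← cl_mul]

theorem exists_alt (w : FreeSemigroup Bool) : ∃ c m, cl w = cl (alt c m) := by
  induction w using FreeSemigroup.recOnMul with
  | ih1 c => exact ⟨c, 0, rfl⟩
  | ih2 c w _ ih =>
    obtain ⟨c', m, h⟩ := ih
    rw [cl_mul, h, ← cl_mul]
    by_cases hc : c' = c
    · subst hc
      exact ⟨c', m, cl_of_alt _ _⟩
    · have : c' = !c := by cases c <;> cases c' <;> simp_all
      subst this
      exact ⟨c, m + 1, rfl⟩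

/-- idempotents of the power generating a copy of `F` -/
def gen (c : Bool) (n : ℕ) : Sh :=
  if c then sh (-2 * n - 1) (2 * n + 1) 0 (by omega) (by omega) le_rfl
  else sh (-2 * n) (2 * n) 0 (by omega) (by omega) le_rfl

theorem gen_idem (c : Bool) (n : ℕ) : gen c n * gen c n = gen c n := by
  unfold gen
  split
  · exact idem_sh _ _
  · exact idem_sh _ _

/-- rounding up -/
def up (c : Bool) (j : ℤ) : ℤ := if c then j + (1 - j) % 2 else j + (0 - j) % 2

theorem gen_apply (c : Bool) (n : ℕ) (j : ℤ) (h1 : -2 * n ≤ j) (h2 : j ≤ 2 * n) :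
    (gen c n).1 j = some (up c j) := by
  cases c with
  | true =>
    change act (-2 * n - 1) (2 * n + 1) 0 j = some (j + (1 - j) % 2)
    exact act_of (by omega) (by omega) (by omega) (by omega) (by omega)
  | false =>
    change act (-2 * n) (2 * n) 0 j = some (j + (0 - j) % 2)
    exact act_of (by omega) (by omega) (by omega) (by omega) (by omega)

/-- the homomorphism from the free semigroup -/
def hom0 : FreeSemigroup Bool →ₙ* (ℕ → Sh) := FreeSemigroup.lift fun c n => gen c n

theorem hom0_of (c : Bool) : hom0 (FreeSemigroup.of c) = fun n => gen c n := rfl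

theorem hom0_alt (m : ℕ) : ∀ (c : Bool) (n : ℕ) (j : ℤ), -2 * n ≤ j → j + m + 1 ≤ 2 * n →
    (hom0 (alt c m) n).1 j = some (up c j + m) := by
  induction m with
  | zero =>
    intro c n j h1 h2
    rw [alt, hom0_of, gen_apply c n j h1 (by omega)]
    simp
  | succ m ih =>
    intro c n j h1 h2
    rw [alt, map_mul, Pi.mul_apply, mul_apply, hom0_of, gen_apply c n j h1 (by omega),
      Option.bind_some]
    have hup : j ≤ up c j ∧ up c j ≤ j + 1 := by unfold up; cases c <;> simp <;> omega
    rw [ih (!c) n (up c j) (by omega) (by push_cast at h2; omega)]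
    congr 1
    have : up (!c) (up c j) = up c j + 1 := by unfold up; cases c <;> simp <;> omega
    rw [this]; push_cast; ring

theorem hom0_inj {c c' : Bool} {m m' : ℕ} (h : hom0 (alt c m) = hom0 (alt c' m')) :
    c = c' ∧ m = m' := by
  have e0 := congrArg (fun f : ℕ → Sh => (f (m + m' + 1)).1 0) h
  have e1 := congrArg (fun f : ℕ → Sh => (f (m + m' + 1)).1 1) h
  beta_reduce at e0 e1
  rw [hom0_alt m c _ 0 (by push_cast; omega) (by push_cast; omega),
    hom0_alt m' c' _ 0 (by push_cast; omega) (by push_cast; omega)] at e0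
  rw [hom0_alt m c _ 1 (by push_cast; omega) (by push_cast; omega),
    hom0_alt m' c' _ 1 (by push_cast; omega) (by push_cast; omega)] at e1
  have f0 := Option.some.inj e0
  have f1 := Option.some.inj e1
  unfold up at f0 f1
  cases c <;> cases c' <;> simp at f0 f1 ⊢ <;> omega

/-- the homomorphism from `F` -/
def homF (x : FF) : ℕ → Sh :=
  Con.liftOn x (fun w => hom0 w) (by
    intro u v h
    have hle : conGen FRel ≤ Con.ker hom0 := by
      rw [Con.conGen_le]
      rintro u v ⟨c, rfl, rfl⟩
      change hom0 (FreeSemigroup.of c * FreeSemigroup.of c) = hom0 (FreeSemigroup.of c)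
      rw [map_mul]
      funext n
      exact gen_idem c n
    exact hle h)

theorem homF_cl (w : FreeSemigroup Bool) : homF (cl w) = hom0 w := rfl

theorem homF_inj : Function.Injective homF := by
  intro x y h
  obtain ⟨u, rfl⟩ := cl_surj x
  obtain ⟨v, rfl⟩ := cl_surj y
  obtain ⟨c, m, hu⟩ := exists_alt u
  obtain ⟨c', m', hv⟩ := exists_alt v
  rw [hu, hv] at h ⊢
  rw [homF_cl, homF_cl] at h
  obtain ⟨rfl, rfl⟩ := hom0_inj h
  rfl

theorem cl_alt_inj {c c' : Bool} {m m' : ℕ} (h : cl (alt c m) = cl (alt c' m')) :
    c = c' ∧ m = m' := hom0_inj (by rw [← homF_cl, ← homF_cl, h])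

theorem pow_not_avoids : ¬ AvoidsF (powAlg shAlg) := by
  intro h
  refine h ⟨homF, homF_inj, fun x y => ?_⟩
  obtain ⟨u, rfl⟩ := cl_surj x
  obtain ⟨v, rfl⟩ := cl_surj y
  rw [← cl_mul, homF_cl, homF_cl, homF_cl, map_mul]
  rfl

/-! ### The truncated shifts avoid `F` -/

/-- `(ab)^(n+1)` -/
def pw (x : Sh) : ℕ → Sh
  | 0 => x
  | n + 1 => x * pw x n

theorem ab_lower {p q p' q' : ℤ} (h : (p' - p) % 2 = 1) {j v : ℤ}
    (hv : ((act p q 0 j).bind (act p' q' 0)) = some v) : p - 1 ≤ j ∧ j + 1 ≤ v ∧ v ≤ q' := by
  cases hu : act p q 0 j with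
  | none => rw [hu] at hv; exact absurd hv (by simp)
  | some u =>
    rw [hu, Option.bind_some] at hv
    have c1 := act_some hu
    have c2 := act_some hv
    omega

theorem pw_lower {p q p' q' : ℤ} (h : (p' - p) % 2 = 1) (h1 : p ≤ q) (h2 : (q - p) % 2 = 0)
    (h1' : p' ≤ q') (h2' : (q' - p') % 2 = 0) (n : ℕ) :
    ∀ j v : ℤ, (pw (sh p q 0 h1 h2 le_rfl * sh p' q' 0 h1' h2' le_rfl) n).1 j = some v →
      p - 1 ≤ j ∧ j + n + 1 ≤ v ∧ v ≤ q' := by
  induction n with
  | zero =>
    intro j v hv
    have := ab_lower (p := p) (q := q) (p' := p') (q' := q') h hv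
    push_cast
    omega
  | succ n ih =>
    intro j v hv
    rw [pw, mul_apply] at hv
    cases hu : (sh p q 0 h1 h2 le_rfl * sh p' q' 0 h1' h2' le_rfl).1 j with
    | none => rw [hu] at hv; exact absurd hv (by simp)
    | some u =>
      rw [hu, Option.bind_some] at hv
      have c1 := ab_lower (p := p) (q := q) (p' := p') (q' := q') h hu
      have c2 := ih u v hv
      push_cast
      omega

theorem sh_dichotomy {a b : Sh} (ha : a * a = a) (hb : b * b = b) :
    a * b = b * a ∨ ∃ n, pw (a * b) n = pw (a * b) (n + 1) := by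
  rcases idem_cases ha with rfl | ⟨p, q, h1, h2, rfl⟩
  · left; rw [zr_mul, mul_zr]
  · rcases idem_cases hb with rfl | ⟨p', q', h1', h2', rfl⟩
    · left; rw [zr_mul, mul_zr]
    · by_cases h : (p' - p) % 2 = 0
      · left
        apply sh_ext
        intro j
        change (act p q 0 j).bind (act p' q' 0) = (act p' q' 0 j).bind (act p q 0)
        cases hu : (act p q 0 j).bind (act p' q' 0) with
        | some v =>
          cases hw : act p q 0 j with
          | none => rw [hw] at hu; exact absurd hu (by simp)
          | some w =>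
            rw [hw, Option.bind_some] at hu
            have c1 := act_some hw
            have c2 := act_some hu
            have e1 : act p' q' 0 j = some v := act_of (by omega) (by omega) (by omega)
              (by omega) (by omega)
            rw [e1, Option.bind_some]
            exact (act_of (by omega) (by omega) (by omega) (by omega) (by omega)).symm
        | none =>
          symm
          by_contra hne
          obtain ⟨v, hv⟩ := Option.ne_none_iff_exists'.mp hne
          cases hw : act p' q' 0 j with
          | none => rw [hw] at hv; exact absurd hv (by simp)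
          | some w =>
            rw [hw, Option.bind_some] at hv
            have c1 := act_some hw
            have c2 := act_some hv
            have e1 : act p q 0 j = some v := act_of (by omega) (by omega) (by omega)
              (by omega) (by omega)
            rw [e1, Option.bind_some,
              act_of (v := v) (by omega) (by omega) (by omega) (by omega) (by omega)] at hu
            exact absurd hu (by simp)
      · right
        have h' : (p' - p) % 2 = 1 := by omega
        have key : ∀ n : ℕ, (q' - p + 2 ≤ n) →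
            pw (sh p q 0 h1 h2 le_rfl * sh p' q' 0 h1' h2' le_rfl) n = zr := by
          intro n hn
          apply sh_ext
          intro j
          change _ = none
          by_contra hne
          obtain ⟨v, hv⟩ := Option.ne_none_iff_exists'.mp hne
          have := pw_lower h' h1 h2 h1' h2' n j v hv
          omega
        refine ⟨(q' - p + 2).toNat, ?_⟩
        rw [key _ (by omega), key _ (by push_cast; omega)]

theorem sh_avoids : AvoidsF shAlg := by
  rintro ⟨f, hf, hm⟩
  have hm : ∀ x y, f (x * y) = f x * f y := hm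
  set A := cl (FreeSemigroup.of true) with hA
  set B := cl (FreeSemigroup.of false) with hB
  have ha : f A * f A = f A := by rw [← hm, hA, cl_idem]
  have hb : f B * f B = f B := by rw [← hm, hB, cl_idem]
  have hpw : ∀ n : ℕ, pw (f A * f B) n = f (cl (alt true (2 * n + 1))) := by
    intro n
    induction n with
    | zero => rw [pw, ← hm]; rfl
    | succ n ih =>
      rw [pw, ih, ← hm, ← hm]
      rfl
  rcases sh_dichotomy ha hb with h | ⟨n, h⟩
  · rw [← hm, ← hm] at h
    have h1 : cl (alt true 1) = cl (alt false 1) := hf h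
    exact absurd (cl_alt_inj h1).1 (by decide)
  · rw [hpw, hpw] at h
    have := (cl_alt_inj (hf h)).2
    omega

theorem main : ¬ ∃ Q : Set QuasiId, ∀ (A : Type) (s : Alg A),
    (∀ q ∈ Q, Sat s q) ↔ (IsAmiable s ∧ AvoidsF s) := by
  rintro ⟨Q, hQ⟩
  have h1 := (hQ Sh shAlg).mpr ⟨sh_amiable, sh_avoids⟩
  have h2 := (hQ (ℕ → Sh) (powAlg shAlg)).mp fun q hq => sat_pow (h1 q hq)
  exact pow_not_avoids h2.2

end Q25.AM
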